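import Mathlib

/-!
# MP_d100af_an: a single Cantor partner for all tree distance sets
-/

namespace Pool.Agent.Results.MP_d100af_an.CantorPartner

open Filter Topology

/-! ### definitions of the statement -/

/-- Cantor sets in the line: nonempty, compact, totally disconnected, without isolated points -/
def IsCantor (K : Set ℝ) : Prop :=
  K.Nonempty ∧ IsCompact K ∧ IsTotallyDisconnected K ∧
    ∀ x ∈ K, ∀ r : ℝ, 0 < r → ∃ y ∈ K, y ≠ x ∧ |y - x| < r

/-- the Euclidean distance of the plane -/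
noncomputable def eDist (p q : ℝ × ℝ) : ℝ := Real.sqrt ((p.1 - q.1) ^ 2 + (p.2 - q.2) ^ 2)

/-- the tree distance set of `X`, as a set of functions on the edges of the tree -/
def treeDist {V : Type} (T : SimpleGraph V) (X : Set (ℝ × ℝ)) : Set (T.edgeSet → ℝ) :=
  {d | ∃ y : V → ℝ × ℝ, Function.Injective y ∧ (∀ v, y v ∈ X) ∧
    ∀ (u v : V) (h : T.Adj u v), d ⟨s(u, v), (SimpleGraph.mem_edgeSet T).2 h⟩ = eDist (y u) (y v)}

/-- the pinned tree distance set of `X` with root `r` pinned at `y₀` -/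
def pinnedTreeDist {V : Type} (T : SimpleGraph V) (r : V) (y₀ : ℝ × ℝ) (X : Set (ℝ × ℝ)) :
    Set (T.edgeSet → ℝ) :=
  {d | ∃ y : V → ℝ × ℝ, y r = y₀ ∧ Function.Injective y ∧ (∀ v, y v ∈ X) ∧
    ∀ (u v : V) (h : T.Adj u v), d ⟨s(u, v), (SimpleGraph.mem_edgeSet T).2 h⟩ = eDist (y u) (y v)}

lemma eDist_comm (p q : ℝ × ℝ) : eDist p q = eDist q p := by
  unfold eDist
  congr 1
  ring

/-! ### the construction -/

lemma exists_gap {K : Set ℝ} (hK : IsCompact K)
    (hK' : ∀ x ∈ K, ∀ r : ℝ, 0 < r → ∃ y ∈ K, y ≠ x ∧ |y - x| < r) {l k : ℝ} (hl : 0 < l)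
    (hk : 0 < k) : ∃ g : ℝ, 0 < g ∧ g ≤ l / 3 ∧
      ∀ x ∈ K, ∃ x' ∈ K, k * g < |x - x'| ∧ k * |x - x'| < l / 3 := by
  obtain ⟨g, hg, h⟩ : ∃ g : ℝ, 0 < g ∧ ∀ x ∈ K, ∃ x' ∈ K, k * g < |x - x'| ∧
      k * |x - x'| < l / 3 := by
    refine hK.induction_on (p := fun s => ∃ g : ℝ, 0 < g ∧ ∀ x ∈ s, ∃ x' ∈ K,
      k * g < |x - x'| ∧ k * |x - x'| < l / 3) ?_ ?_ ?_ ?_
    · exact ⟨1, one_pos, fun x hx => absurd hx (Set.notMem_empty x)⟩
    · rintro s t hst ⟨g, hg, h⟩
      exact ⟨g, hg, fun x hx => h x (hst hx)⟩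
    · rintro s t ⟨g, hg, h⟩ ⟨g', hg', h'⟩
      refine ⟨min g g', lt_min hg hg', ?_⟩
      rintro x (hx | hx)
      · obtain ⟨x', hx', h1, h2⟩ := h x hx
        exact ⟨x', hx', lt_of_le_of_lt (mul_le_mul_of_nonneg_left (min_le_left _ _) hk.le) h1, h2⟩
      · obtain ⟨x', hx', h1, h2⟩ := h' x hx
        exact ⟨x', hx', lt_of_le_of_lt (mul_le_mul_of_nonneg_left (min_le_right _ _) hk.le) h1, h2⟩
    · intro x hx
      have hr : 0 < l / (6 * k) := by positivity
      obtain ⟨y, hy, hyx, hyr⟩ := hK' x hx _ hr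
      have hρ : 0 < |y - x| := abs_pos.2 (sub_ne_zero.2 hyx)
      refine ⟨Metric.ball x (min (|y - x| / 2) (l / (6 * k))),
        mem_nhdsWithin_of_mem_nhds (Metric.ball_mem_nhds _ (lt_min (by positivity) hr)),
        |y - x| / (4 * k), by positivity, ?_⟩
      intro x' hx'
      rw [Metric.mem_ball, Real.dist_eq, lt_min_iff] at hx'
      refine ⟨y, hy, ?_, ?_⟩
      · have h1 : k * (|y - x| / (4 * k)) = |y - x| / 4 := by
          field_simp
        rw [h1]
        have h2 : |y - x| ≤ |x' - y| + |x' - x| := by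
          have := abs_sub_le y x' x
          rwa [abs_sub_comm y x'] at this
        linarith [hx'.1]
      · have h2 : |x' - y| ≤ |x' - x| + |y - x| := by
          have := abs_sub_le x' x y
          rwa [abs_sub_comm x y] at this
        have h3 : |x' - y| < 2 * (l / (6 * k)) := by linarith [hx'.2]
        have h4 : k * |x' - y| < k * (2 * (l / (6 * k))) := mul_lt_mul_of_pos_left h3 hk
        have h5 : k * (2 * (l / (6 * k))) = l / 3 := by
          field_simp
          norm_num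
        linarith
  refine ⟨min g (l / 3), lt_min hg (by positivity), min_le_right _ _, fun x hx => ?_⟩
  obtain ⟨x', hx', h1, h2⟩ := h x hx
  exact ⟨x', hx', lt_of_le_of_lt (mul_le_mul_of_nonneg_left (min_le_left _ _) hk.le) h1, h2⟩

/-- the lengths `ℓ n` of the intervals of level `n` and the gaps `g n` -/
structure Data (K : Set ℝ) where
  l : ℕ → ℝ
  g : ℕ → ℝ
  h0 : l 0 = 1
  hs : ∀ n, l (n + 1) = (l n - g n) / 2
  hg : ∀ n, 0 < g n
  hg' : ∀ n, g n ≤ l n / 3
  rich : ∀ n : ℕ, ∀ x ∈ K, ∃ x' ∈ K, ((n : ℝ) + 1) * g n < |x - x'| ∧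
    ((n : ℝ) + 1) * |x - x'| < l n / 3

lemma exists_data {K : Set ℝ} (hK : IsCompact K)
    (hK' : ∀ x ∈ K, ∀ r : ℝ, 0 < r → ∃ y ∈ K, y ≠ x ∧ |y - x| < r) : Nonempty (Data K) := by
  have h : ∀ (n : ℕ) (l : ℝ), ∃ g : ℝ, 0 < l → 0 < g ∧ g ≤ l / 3 ∧
      ∀ x ∈ K, ∃ x' ∈ K, ((n : ℝ) + 1) * g < |x - x'| ∧ ((n : ℝ) + 1) * |x - x'| < l / 3 := by
    intro n l
    by_cases hl : 0 < l
    · obtain ⟨g, hg⟩ := exists_gap hK hK' hl (k := (n : ℝ) + 1) (by positivity)
      exact ⟨g, fun _ => hg⟩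
    · exact ⟨0, fun h => absurd h hl⟩
  choose G hG using h
  let l : ℕ → ℝ := fun n => Nat.rec 1 (fun n l => (l - G n l) / 2) n
  have hl : ∀ n, l (n + 1) = (l n - G n (l n)) / 2 := fun n => rfl
  have hpos : ∀ n, 0 < l n := by
    intro n
    induction n with
    | zero => exact one_pos
    | succ n ih =>
      rw [hl]
      have := (hG n (l n) ih).2.1
      linarith
  exact ⟨⟨l, fun n => G n (l n), rfl, hl, fun n => (hG n _ (hpos n)).1,
    fun n => (hG n _ (hpos n)).2.1, fun n => (hG n _ (hpos n)).2.2⟩⟩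

namespace Data

variable {K : Set ℝ} (D : Data K)

lemma pos (n : ℕ) : 0 < D.l n := by
  have h1 := D.hg n
  have h2 := D.hg' n
  linarith

lemma half (n : ℕ) : D.l (n + 1) ≤ D.l n / 2 := by
  rw [D.hs]
  have h1 := D.hg n
  linarith

lemma third (n : ℕ) : D.l n / 3 ≤ D.l (n + 1) := by
  rw [D.hs]
  have h1 := D.hg' n
  linarith

lemma l_le (n : ℕ) : D.l n ≤ (1 / 2) ^ n := by
  induction n with
  | zero => simp [D.h0]
  | succ n ih =>
    have := D.half n
    rw [pow_succ]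
    linarith

lemma tendsto_l : Tendsto D.l atTop (𝓝 0) :=
  squeeze_zero (fun n => (D.pos n).le) D.l_le
    (tendsto_pow_atTop_nhds_zero_of_lt_one (by norm_num) (by norm_num))

lemma anti : Antitone D.l := antitone_nat_of_succ_le fun n => by
  have h1 := D.half n
  have h2 := D.pos n
  linarith

/-- the shift at level `n` -/
noncomputable def d (n : ℕ) : ℝ := D.l n - D.l (n + 1)

lemma d_eq (n : ℕ) : D.d n = D.l (n + 1) + D.g n := by
  have := D.hs n
  unfold d
  linarith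

lemma d_pos (n : ℕ) : 0 < D.d n := by
  rw [d_eq]
  have := D.pos (n + 1)
  have := D.hg n
  linarith

/-- the terms -/
noncomputable def t (e : ℕ → Bool) (n : ℕ) : ℝ := if e n then D.d n else 0

lemma t_nonneg (e : ℕ → Bool) (n : ℕ) : 0 ≤ D.t e n := by
  unfold t
  split_ifs
  · exact (D.d_pos n).le
  · exact le_rfl

lemma t_le (e : ℕ → Bool) (n : ℕ) : D.t e n ≤ D.d n := by
  unfold t
  split_ifs
  · exact le_rfl
  · exact (D.d_pos n).le

/-- the points of the Cantor set -/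
noncomputable def z (e : ℕ → Bool) : ℝ := ∑' n, D.t e n

/-- the left endpoints of the intervals -/
noncomputable def s (e : ℕ → Bool) (n : ℕ) : ℝ := ∑ k ∈ Finset.range n, D.t e k

lemma hasSum_d (n : ℕ) : HasSum (fun k => D.d (k + n)) (D.l n) := by
  rw [hasSum_iff_tendsto_nat_of_nonneg (fun k => (D.d_pos _).le)]
  have h1 : ∀ m, ∑ i ∈ Finset.range m, D.d (i + n) = D.l n - D.l (m + n) := by
    intro m
    have := Finset.sum_range_sub' (fun i => D.l (i + n)) m
    simp only [Nat.zero_add] at this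
    rw [← this]
    apply Finset.sum_congr rfl
    intro i _
    unfold d
    congr 2
    omega
  simp only [h1]
  have h2 : Tendsto (fun m => D.l (m + n)) atTop (𝓝 0) :=
    D.tendsto_l.comp (tendsto_add_atTop_nat n)
  simpa using h2.const_sub (D.l n)

lemma summable_d : Summable D.d := by
  simpa using (D.hasSum_d 0).summable

lemma summable_t (e : ℕ → Bool) : Summable (D.t e) :=
  Summable.of_nonneg_of_le (D.t_nonneg e) (D.t_le e) D.summable_d

lemma z_mem (e : ℕ → Bool) (n : ℕ) : D.s e n ≤ D.z e ∧ D.z e ≤ D.s e n + D.l n := by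
  have h1 : D.s e n + ∑' k, D.t e (k + n) = D.z e := (D.summable_t e).sum_add_tsum_nat_add n
  have h2 : 0 ≤ ∑' k, D.t e (k + n) := tsum_nonneg fun k => D.t_nonneg _ _
  have h3 : ∑' k, D.t e (k + n) ≤ D.l n := by
    rw [← (D.hasSum_d n).tsum_eq]
    exact ((summable_nat_add_iff n).2 (D.summable_t e)).tsum_le_tsum
      (fun k => D.t_le _ _) (D.hasSum_d n).summable
  constructor <;> linarith

lemma s_succ (e : ℕ → Bool) (n : ℕ) : D.s e (n + 1) = D.s e n + D.t e n := by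
  unfold s
  rw [Finset.sum_range_succ]

lemma s_congr {e e' : ℕ → Bool} {n : ℕ} (h : ∀ k < n, e k = e' k) : D.s e n = D.s e' n := by
  unfold s
  apply Finset.sum_congr rfl
  intro k hk
  unfold t
  rw [h k (Finset.mem_range.1 hk)]

lemma close {e e' : ℕ → Bool} {n : ℕ} (h : ∀ k < n, e k = e' k) : |D.z e - D.z e'| ≤ D.l n := by
  have h1 := D.z_mem e n
  have h2 := D.z_mem e' n
  rw [D.s_congr h] at h1
  rw [abs_le]
  constructor <;> linarith [h1.1, h1.2, h2.1, h2.2]

lemma continuous_t (n : ℕ) : Continuous fun e : ℕ → Bool => D.t e n := by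
  have : Continuous fun b : Bool => if b then D.d n else 0 := continuous_of_discreteTopology
  exact this.comp (continuous_apply n)

lemma continuous_z : Continuous D.z := by
  refine continuous_tsum D.continuous_t D.summable_d (fun n e => ?_)
  rw [Real.norm_of_nonneg (D.t_nonneg e n)]
  exact D.t_le e n

lemma continuous_s (n : ℕ) : Continuous fun e : ℕ → Bool => D.s e n :=
  continuous_finsetSum _ fun k _ => D.continuous_t k

lemma z_lt {e e' : ℕ → Bool} {n : ℕ} (h : ∀ k < n, e k = e' k) (h1 : e n = true)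
    (h2 : e' n = false) : D.z e' < D.z e := by
  have h3 := D.z_mem e (n + 1)
  have h4 := D.z_mem e' (n + 1)
  rw [D.s_succ] at h3 h4
  rw [D.s_congr h] at h3
  have h5 : D.t e n = D.d n := by
    unfold t
    rw [h1]
    simp
  have h6 : D.t e' n = 0 := by
    unfold t
    rw [h2]
    simp
  have h7 := D.d_eq n
  have h8 := D.hg n
  linarith [h3.1, h4.2]

lemma injective_z : Function.Injective D.z := by
  intro e e' h
  by_contra hne
  have hex : ∃ n, e n ≠ e' n := Function.ne_iff.1 hne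
  classical
  have hn := Nat.find_spec hex
  have hmin : ∀ k < Nat.find hex, e k = e' k := fun k hk => by
    have := Nat.find_min hex hk
    simpa using this
  rcases Bool.eq_false_or_eq_true (e (Nat.find hex)) with h1 | h1
  · have h2 : e' (Nat.find hex) = false := by
      rw [h1] at hn
      simpa using hn.symm
    exact (D.z_lt hmin h1 h2).ne h.symm
  · have h2 : e' (Nat.find hex) = true := by
      rw [h1] at hn
      simpa using hn.symm
    exact (D.z_lt (fun k hk => (hmin k hk).symm) h2 h1).ne h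

lemma exists_near (e : ℕ → Bool) {r : ℝ} (hr : 0 < r) :
    ∃ e' : ℕ → Bool, D.z e' ≠ D.z e ∧ |D.z e' - D.z e| < r := by
  obtain ⟨n, hn⟩ := (D.tendsto_l.eventually (gt_mem_nhds hr)).exists
  classical
  refine ⟨Function.update e n (!(e n)), ?_, ?_⟩
  · intro h
    have := congrFun (D.injective_z h) n
    simp at this
  · refine lt_of_le_of_lt (D.close (n := n) ?_) hn
    intro k hk
    rw [Function.update_of_ne hk.ne]

lemma isCantor_range : IsCantor (Set.range D.z) := by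
  refine ⟨Set.range_nonempty _, isCompact_range D.continuous_z, ?_, ?_⟩
  · exact (D.continuous_z.isClosedEmbedding D.injective_z).isEmbedding.isTotallyDisconnected_range.2
      inferInstance
  · rintro _ ⟨e, rfl⟩ r hr
    obtain ⟨e', h1, h2⟩ := D.exists_near e hr
    exact ⟨_, ⟨e', rfl⟩, h1, h2⟩

/-! ### the capture lemma -/

lemma capture (hKc : IsCompact K) {φ : ℝ → ℝ} (hφ : Continuous φ) {x₀ : ℝ} (hx₀ : x₀ ∈ K) {N : ℕ}
    {c C : ℝ} (hc0 : 0 < c) (hc : 1 ≤ c * ((N : ℝ) + 1)) (hC : C ≤ (N : ℝ) + 1)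
    (hlow : ∀ x x' : ℝ, |x - x₀| ≤ D.l N → |x' - x₀| ≤ D.l N → c * |x - x'| ≤ |φ x - φ x'|)
    (hup : ∀ x x' : ℝ, |x - x₀| ≤ D.l N → |x' - x₀| ≤ D.l N → |φ x - φ x'| ≤ C * |x - x'|)
    (e₀ : ℕ → Bool) (h1 : D.s e₀ N ≤ φ x₀) (h2 : φ x₀ ≤ D.s e₀ N + D.l N) :
    ∃ x ∈ K, |x - x₀| ≤ D.l N ∧ ∃ e : ℕ → Bool, (∀ k < N, e k = e₀ k) ∧ φ x = D.z e := by
  classical
  have key : ∀ j : ℕ, ∃ x ∈ K, ∃ e : ℕ → Bool, (∀ k < N, e k = e₀ k) ∧
      |x - x₀| ≤ D.l N - D.l (N + j) ∧ D.s e (N + j) ≤ φ x ∧ φ x ≤ D.s e (N + j) + D.l (N + j) := by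
    intro j
    induction j with
    | zero => exact ⟨x₀, hx₀, e₀, fun _ _ => rfl, by simp, h1, h2⟩
    | succ j ih =>
      obtain ⟨x, hx, e, he, hxd, h3, h4⟩ := ih
      set m := N + j with hm
      have hlm := D.pos m
      have hlm' := D.pos (m + 1)
      have hhalf := D.half m
      have hthird := D.third m
      have hd := D.d_eq m
      have hd' : D.d m = D.l m - D.l (m + 1) := rfl
      have hg := D.hg m
      have fin0 : ∀ x' ∈ K, |x' - x₀| ≤ D.l N - D.l (m + 1) → D.s e m ≤ φ x' →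
          φ x' ≤ D.s e m + D.l (m + 1) → ∃ x ∈ K, ∃ e : ℕ → Bool, (∀ k < N, e k = e₀ k) ∧
          |x - x₀| ≤ D.l N - D.l (m + 1) ∧ D.s e (m + 1) ≤ φ x ∧
            φ x ≤ D.s e (m + 1) + D.l (m + 1) := by
        intro x' hx' h5 h6 h7
        have hs : D.s (Function.update e m false) m = D.s e m := by
          apply D.s_congr
          intro k hk
          rw [Function.update_of_ne hk.ne]
        have ht : D.t (Function.update e m false) m = 0 := by
          unfold t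
          simp
        refine ⟨x', hx', Function.update e m false, ?_, h5, ?_, ?_⟩
        · intro k hk
          rw [Function.update_of_ne (by omega)]
          exact he k hk
        · rw [D.s_succ, hs, ht]
          linarith
        · rw [D.s_succ, hs, ht]
          linarith
      have fin1 : ∀ x' ∈ K, |x' - x₀| ≤ D.l N - D.l (m + 1) → D.s e m + D.d m ≤ φ x' →
          φ x' ≤ D.s e m + D.l m → ∃ x ∈ K, ∃ e : ℕ → Bool, (∀ k < N, e k = e₀ k) ∧
          |x - x₀| ≤ D.l N - D.l (m + 1) ∧ D.s e (m + 1) ≤ φ x ∧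
            φ x ≤ D.s e (m + 1) + D.l (m + 1) := by
        intro x' hx' h5 h6 h7
        have hs : D.s (Function.update e m true) m = D.s e m := by
          apply D.s_congr
          intro k hk
          rw [Function.update_of_ne hk.ne]
        have ht : D.t (Function.update e m true) m = D.d m := by
          unfold t
          simp
        refine ⟨x', hx', Function.update e m true, ?_, h5, ?_, ?_⟩
        · intro k hk
          rw [Function.update_of_ne (by omega)]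
          exact he k hk
        · rw [D.s_succ, hs, ht]
          linarith
        · rw [D.s_succ, hs, ht]
          linarith
      show ∃ x ∈ K, ∃ e : ℕ → Bool, (∀ k < N, e k = e₀ k) ∧
          |x - x₀| ≤ D.l N - D.l (m + 1) ∧ D.s e (m + 1) ≤ φ x ∧
            φ x ≤ D.s e (m + 1) + D.l (m + 1)
      by_cases hc1 : φ x ≤ D.s e m + D.l (m + 1)
      · exact fin0 x hx (by linarith) h3 hc1
      by_cases hc2 : D.s e m + D.d m ≤ φ x
      · exact fin1 x hx (by linarith) hc2 h4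
      push Not at hc1 hc2
      obtain ⟨x', hx', h5, h6⟩ := D.rich m x hx
      have hm1 : (1 : ℝ) ≤ (m : ℝ) + 1 := by
        have : (0 : ℝ) ≤ (m : ℝ) := Nat.cast_nonneg m
        linarith
      have hNm : (N : ℝ) ≤ m := by
        rw [hm]
        push_cast
        have : (0 : ℝ) ≤ (j : ℝ) := Nat.cast_nonneg j
        linarith
      have h7 : |x - x'| < D.l m / 3 := by
        have : |x - x'| ≤ ((m : ℝ) + 1) * |x - x'| := by
          nlinarith [abs_nonneg (x - x')]
        linarith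
      have h8 : |x' - x₀| ≤ D.l N - D.l (m + 1) := by
        have h9 : |x' - x₀| ≤ |x - x₀| + |x - x'| := by
          have := abs_sub_le x' x x₀
          rw [abs_sub_comm x' x] at this
          linarith
        linarith
      have hb1 : |x - x₀| ≤ D.l N := by linarith
      have hb2 : |x' - x₀| ≤ D.l N := by linarith
      have h10 : D.g m < |φ x - φ x'| := by
        have h11 := hlow x x' hb1 hb2
        have h12 : D.g m ≤ c * (((m : ℝ) + 1) * D.g m) := by
          have : 1 ≤ c * ((m : ℝ) + 1) := by nlinarith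
          nlinarith
        have h13 : c * (((m : ℝ) + 1) * D.g m) < c * |x - x'| := mul_lt_mul_of_pos_left h5 hc0
        linarith
      have h14 : |φ x - φ x'| < D.l (m + 1) := by
        have h11 := hup x x' hb1 hb2
        have h12 : C * |x - x'| ≤ ((m : ℝ) + 1) * |x - x'| :=
          mul_le_mul_of_nonneg_right (by linarith) (abs_nonneg _)
        linarith
      rw [abs_lt] at h14
      rcases lt_abs.1 h10 with h15 | h15
      · exact fin0 x' hx' h8 (by linarith) (by linarith)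
      · exact fin1 x' hx' h8 (by linarith) (by linarith)
  -- compactness
  set S : ℕ → Set (ℝ × (ℕ → Bool)) := fun j => {p | p.1 ∈ K ∧ |p.1 - x₀| ≤ D.l N ∧
    (∀ k < N, p.2 k = e₀ k) ∧ D.s p.2 (N + j) ≤ φ p.1 ∧
      φ p.1 ≤ D.s p.2 (N + j) + D.l (N + j)} with hS
  have hclosed : ∀ j, IsClosed (S j) := by
    intro j
    have c1 : IsClosed {p : ℝ × (ℕ → Bool) | p.1 ∈ K} := hKc.isClosed.preimage continuous_fst
    have c2 : IsClosed {p : ℝ × (ℕ → Bool) | |p.1 - x₀| ≤ D.l N} :=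
      isClosed_le (by fun_prop) (by fun_prop)
    have c3 : IsClosed {p : ℝ × (ℕ → Bool) | ∀ k < N, p.2 k = e₀ k} := by
      simp only [Set.ofPred_forall]
      refine isClosed_iInter fun k => isClosed_iInter fun _ => ?_
      exact isClosed_eq ((continuous_apply k).comp continuous_snd) continuous_const
    have hsc : Continuous fun p : ℝ × (ℕ → Bool) => D.s p.2 (N + j) :=
      (D.continuous_s (N + j)).comp continuous_snd
    have hpc : Continuous fun p : ℝ × (ℕ → Bool) => φ p.1 := hφ.comp continuous_fst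
    have c4 : IsClosed {p : ℝ × (ℕ → Bool) | D.s p.2 (N + j) ≤ φ p.1} := isClosed_le hsc hpc
    have c5 : IsClosed {p : ℝ × (ℕ → Bool) | φ p.1 ≤ D.s p.2 (N + j) + D.l (N + j)} :=
      isClosed_le hpc (hsc.add continuous_const)
    exact c1.inter (c2.inter (c3.inter (c4.inter c5)))
  have hcomp : IsCompact (S 0) := by
    refine (hKc.prod (isCompact_univ (X := ℕ → Bool))).of_isClosed_subset (hclosed 0) ?_
    intro p hp
    exact ⟨hp.1, Set.mem_univ _⟩
  have hnested : ∀ j, S (j + 1) ⊆ S j := by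
    rintro j ⟨x, e⟩ ⟨a1, a2, a3, a4, a5⟩
    refine ⟨a1, a2, a3, ?_, ?_⟩
    · have h3 : D.s e (N + (j + 1)) = D.s e (N + j) + D.t e (N + j) := D.s_succ e (N + j)
      have h4 := D.t_nonneg e (N + j)
      simp only at a4 ⊢
      linarith
    · have h3 : D.s e (N + (j + 1)) = D.s e (N + j) + D.t e (N + j) := D.s_succ e (N + j)
      have h4 := D.t_le e (N + j)
      have h5 : D.d (N + j) = D.l (N + j) - D.l (N + (j + 1)) := rfl
      simp only at a5 ⊢
      linarith
  have hne : ∀ j, (S j).Nonempty := by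
    intro j
    obtain ⟨x, hx, e, b1, b2, b3, b4⟩ := key j
    refine ⟨(x, e), hx, ?_, b1, b3, b4⟩
    have := D.pos (N + j)
    simp only
    linarith
  obtain ⟨⟨x, e⟩, hxe⟩ := IsCompact.nonempty_iInter_of_sequence_nonempty_isCompact_isClosed S
    hnested hne hcomp hclosed
  rw [Set.mem_iInter] at hxe
  refine ⟨x, (hxe 0).1, (hxe 0).2.1, e, (hxe 0).2.2.1, ?_⟩
  have h3 : ∀ j : ℕ, |φ x - D.z e| ≤ D.l (N + j) := by
    intro j
    have h4 := (hxe j).2.2.2
    have h5 := D.z_mem e (N + j)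
    simp only at h4
    rw [abs_le]
    constructor <;> linarith [h4.1, h4.2, h5.1, h5.2]
  have h4 : Tendsto (fun j => D.l (N + j)) atTop (𝓝 0) := by
    have := D.tendsto_l.comp (tendsto_add_atTop_nat N)
    refine this.congr ?_
    intro j
    simp [Function.comp, Nat.add_comm]
  have h5 : |φ x - D.z e| ≤ 0 := ge_of_tendsto' h4 h3
  have h6 := abs_nonpos_iff.1 h5
  linarith

/-! ### one edge -/

lemma edge (hKc : IsCompact K) (hK' : ∀ x ∈ K, ∀ r : ℝ, 0 < r → ∃ y ∈ K, y ≠ x ∧ |y - x| < r)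
    (a₀ b₀ : ℝ) {x₀ : ℝ} (hx₀ : x₀ ∈ K) (e₀ : ℕ → Bool) {δ : ℝ} (hδ : 0 < δ) :
    ∃ t₂ η : ℝ, 0 < η ∧ ∀ a b t : ℝ, |a - a₀| < η → |b - b₀| < η → |t - t₂| < η →
      ∃ x ∈ K, ∃ e : ℕ → Bool, |x - x₀| < δ ∧ |D.z e - D.z e₀| < δ ∧
        eDist (a, b) (x, D.z e) = t := by
  obtain ⟨x₁, hx₁, hx₁a, hx₁δ⟩ : ∃ x₁ ∈ K, x₁ ≠ a₀ ∧ |x₁ - x₀| < δ / 2 := by
    by_cases h : x₀ = a₀
    · obtain ⟨y, hy, h1, h2⟩ := hK' x₀ hx₀ (δ / 2) (by positivity)
      exact ⟨y, hy, h ▸ h1, h2⟩
    · exact ⟨x₀, hx₀, h, by simpa using hδ⟩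
  obtain ⟨e₁, he₁b, he₁δ⟩ : ∃ e₁ : ℕ → Bool, D.z e₁ ≠ b₀ ∧ |D.z e₁ - D.z e₀| < δ / 2 := by
    by_cases h : D.z e₀ = b₀
    · obtain ⟨e', h1, h2⟩ := D.exists_near e₀ (half_pos hδ)
      exact ⟨e', h ▸ h1, h2⟩
    · exact ⟨e₀, h, by simpa using hδ⟩
  set X : ℝ := |x₁ - a₀| with hX
  have hX0 : 0 < X := abs_pos.2 (sub_ne_zero.2 hx₁a)
  obtain ⟨σ, hσ, hσZ⟩ : ∃ σ : ℝ, (σ = 1 ∨ σ = -1) ∧ 0 < σ * (D.z e₁ - b₀) := by
    rcases lt_or_gt_of_ne he₁b with h | h
    · exact ⟨-1, Or.inr rfl, by linarith⟩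
    · exact ⟨1, Or.inl rfl, by linarith⟩
  have hσσ : σ * σ = 1 := by rcases hσ with h | h <;> rw [h] <;> norm_num
  set Z : ℝ := σ * (D.z e₁ - b₀) with hZ
  have hZ2 : (D.z e₁ - b₀) ^ 2 = Z ^ 2 := by
    rw [hZ, mul_pow, sq σ, hσσ, one_mul]
  set t₁ : ℝ := Real.sqrt ((x₁ - a₀) ^ 2 + (D.z e₁ - b₀) ^ 2) with ht₁
  have ht₁sq : t₁ ^ 2 = (x₁ - a₀) ^ 2 + Z ^ 2 := by
    rw [ht₁, Real.sq_sqrt (by positivity), hZ2]
  have ht₁0 : 0 < t₁ := by
    apply Real.sqrt_pos.2
    rw [hZ2]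
    positivity
  -- the neighbourhood
  have hc1 : Continuous fun w : ℝ × ℝ × ℝ => w.1 ^ 2 - (w.2.1 - w.2.2) ^ 2 := by fun_prop
  have h1 : ∀ᶠ w : ℝ × ℝ × ℝ in 𝓝 (t₁, x₁, a₀), Z ^ 2 / 4 < w.1 ^ 2 - (w.2.1 - w.2.2) ^ 2 := by
    apply (hc1.tendsto _).eventually (lt_mem_nhds _)
    simp only
    rw [ht₁sq]
    nlinarith
  obtain ⟨η₁, hη₁, h1⟩ := Metric.eventually_nhds_iff.1 h1
  set η₂ : ℝ := min (min η₁ (X / 4)) (min t₁ 1) with hη₂
  have hη₂0 : 0 < η₂ := lt_min (lt_min hη₁ (by positivity)) (lt_min ht₁0 one_pos)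
  have hη₂a : η₂ ≤ η₁ := (min_le_left _ _).trans (min_le_left _ _)
  have hη₂b : η₂ ≤ X / 4 := (min_le_left _ _).trans (min_le_right _ _)
  have hη₂c : η₂ ≤ t₁ := (min_le_right _ _).trans (min_le_left _ _)
  have hη₂d : η₂ ≤ 1 := (min_le_right _ _).trans (min_le_right _ _)
  have hA : ∀ t x a : ℝ, |t - t₁| < η₂ → |x - x₁| < η₂ → |a - a₀| < η₂ →
      Z ^ 2 / 4 < t ^ 2 - (x - a) ^ 2 := by
    intro t x a ht hx ha
    apply h1 (y := (t, x, a))
    rw [Prod.dist_eq, Prod.dist_eq, max_lt_iff, max_lt_iff, Real.dist_eq, Real.dist_eq,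
      Real.dist_eq]
    exact ⟨ht.trans_le hη₂a, hx.trans_le hη₂a, ha.trans_le hη₂a⟩
  have hbl : ∀ t a x x' : ℝ, |t - t₁| < η₂ → |a - a₀| < η₂ → |x - x₁| < η₂ → |x' - x₁| < η₂ →
      X * |x - x'| ≤ |Real.sqrt (t ^ 2 - (x - a) ^ 2) - Real.sqrt (t ^ 2 - (x' - a) ^ 2)| *
        (2 * (t₁ + 1)) ∧
      |Real.sqrt (t ^ 2 - (x - a) ^ 2) - Real.sqrt (t ^ 2 - (x' - a) ^ 2)| * Z ≤
        3 * X * |x - x'| := by
    intro t a x x' ht ha hx hx'
    have hA1 := hA t x a ht hx ha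
    have hA2 := hA t x' a ht hx' ha
    have hZ0 : 0 ≤ Z ^ 2 / 4 := by positivity
    have hlow : ∀ A : ℝ, Z ^ 2 / 4 < A → Z / 2 ≤ Real.sqrt A := by
      intro A hA
      apply Real.le_sqrt_of_sq_le
      nlinarith
    have ht' := abs_lt.1 ht
    have htpos : 0 < t := by linarith
    have hupp : ∀ y : ℝ, Real.sqrt (t ^ 2 - (y - a) ^ 2) ≤ t₁ + 1 := by
      intro y
      calc Real.sqrt (t ^ 2 - (y - a) ^ 2) ≤ Real.sqrt (t ^ 2) :=
            Real.sqrt_le_sqrt (by nlinarith [sq_nonneg (y - a)])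
        _ = t := Real.sqrt_sq htpos.le
        _ ≤ t₁ + 1 := by linarith
    have h5 := hlow _ hA1
    have h6 := hlow _ hA2
    have h7 := hupp x
    have h8 := hupp x'
    have hs1 := Real.mul_self_sqrt (hZ0.trans hA1.le)
    have hs2 := Real.mul_self_sqrt (hZ0.trans hA2.le)
    set A := Real.sqrt (t ^ 2 - (x - a) ^ 2) with hAdef
    set A' := Real.sqrt (t ^ 2 - (x' - a) ^ 2) with hAdef'
    have hid : (A - A') * (A + A') = (x' - x) * (x + x' - 2 * a) := by
      have : (A - A') * (A + A') = A * A - A' * A' := by ring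
      rw [this, hs1, hs2]
      ring
    have hid2 : |A - A'| * (A + A') = |x - x'| * |x + x' - 2 * a| := by
      have h9 : |A + A'| = A + A' := abs_of_nonneg (by linarith)
      rw [← h9, ← abs_mul, hid, abs_mul, abs_sub_comm x' x]
    have hb : X ≤ |x + x' - 2 * a| ∧ |x + x' - 2 * a| ≤ 3 * X := by
      rw [abs_lt] at hx hx' ha
      rcases abs_cases (x₁ - a₀) with ⟨h, h'⟩ | ⟨h, h'⟩ <;>
        rcases abs_cases (x + x' - 2 * a) with ⟨k, k'⟩ | ⟨k, k'⟩ <;>
        constructor <;> linarith [hx.1, hx.2, hx'.1, hx'.2, ha.1, ha.2]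
    constructor
    · calc X * |x - x'| = |x - x'| * X := mul_comm _ _
        _ ≤ |x - x'| * |x + x' - 2 * a| := mul_le_mul_of_nonneg_left hb.1 (abs_nonneg _)
        _ = |A - A'| * (A + A') := hid2.symm
        _ ≤ |A - A'| * (2 * (t₁ + 1)) := mul_le_mul_of_nonneg_left (by linarith) (abs_nonneg _)
    · calc |A - A'| * Z ≤ |A - A'| * (A + A') :=
            mul_le_mul_of_nonneg_left (by linarith) (abs_nonneg _)
        _ = |x - x'| * |x + x' - 2 * a| := hid2
        _ ≤ |x - x'| * (3 * X) := mul_le_mul_of_nonneg_left hb.2 (abs_nonneg _)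
        _ = 3 * X * |x - x'| := mul_comm _ _
  -- continuity in `z`
  obtain ⟨η', hη', h2⟩ : ∃ η' > 0, ∀ z : ℝ, |z - D.z e₁| < η' →
      |Real.sqrt ((x₁ - a₀) ^ 2 + (z - b₀) ^ 2) - t₁| < η₂ / 2 := by
    have hc2 : Continuous fun z : ℝ => Real.sqrt ((x₁ - a₀) ^ 2 + (z - b₀) ^ 2) := by fun_prop
    obtain ⟨η', hη', h⟩ := Metric.continuous_iff.1 hc2 (D.z e₁) (η₂ / 2) (by positivity)
    refine ⟨η', hη', fun z hz => ?_⟩
    have := h z (by rwa [Real.dist_eq])
    rwa [Real.dist_eq] at this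
  have hc0 : 0 < X / (2 * (t₁ + 1)) := by positivity
  obtain ⟨N, hN1, hN2, hN3, hN4, hN5, hN6⟩ : ∃ N : ℕ, D.l N < η₂ ∧ D.l N < δ / 2 ∧ D.l N < Z ∧
      D.l N < η' ∧ 1 / (X / (2 * (t₁ + 1))) ≤ (N : ℝ) ∧ 3 * X / Z ≤ (N : ℝ) := by
    have q1 := D.tendsto_l.eventually (gt_mem_nhds hη₂0)
    have q2 := D.tendsto_l.eventually (gt_mem_nhds (half_pos hδ))
    have q3 := D.tendsto_l.eventually (gt_mem_nhds hσZ)
    have q4 := D.tendsto_l.eventually (gt_mem_nhds hη')
    have q5 := (tendsto_natCast_atTop_atTop (R := ℝ)).eventually_ge_atTop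
      (1 / (X / (2 * (t₁ + 1))))
    have q6 := (tendsto_natCast_atTop_atTop (R := ℝ)).eventually_ge_atTop (3 * X / Z)
    exact (q1.and (q2.and (q3.and (q4.and (q5.and q6))))).exists
  have hlN := D.pos N
  set z₂ : ℝ := D.s e₁ N + D.l N / 2 with hz₂
  have hzz : |z₂ - D.z e₁| ≤ D.l N / 2 := by
    have := D.z_mem e₁ N
    rw [abs_le, hz₂]
    constructor <;> linarith [this.1, this.2]
  set t₂ : ℝ := Real.sqrt ((x₁ - a₀) ^ 2 + (z₂ - b₀) ^ 2) with ht₂
  have ht₂₁ : |t₂ - t₁| < η₂ / 2 := h2 z₂ (by linarith)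
  have hpos2 : 0 < σ * (z₂ - b₀) := by
    have h3 : σ * (z₂ - b₀) = Z + σ * (z₂ - D.z e₁) := by rw [hZ]; ring
    rw [h3]
    rw [abs_le] at hzz
    rcases hσ with h | h <;> rw [h] <;> linarith [hzz.1, hzz.2]
  have hval : b₀ + σ * Real.sqrt (t₂ ^ 2 - (x₁ - a₀) ^ 2) = z₂ := by
    have h3 : t₂ ^ 2 - (x₁ - a₀) ^ 2 = (σ * (z₂ - b₀)) ^ 2 := by
      rw [ht₂, Real.sq_sqrt (by positivity), mul_pow, sq σ, hσσ]
      ring
    rw [h3, Real.sqrt_sq hpos2.le, ← mul_assoc, hσσ]
    ring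
  have hc3 : Continuous fun w : ℝ × ℝ × ℝ =>
      w.2.1 + σ * Real.sqrt (w.2.2 ^ 2 - (x₁ - w.1) ^ 2) := by fun_prop
  have h3 : ∀ᶠ w : ℝ × ℝ × ℝ in 𝓝 (a₀, b₀, t₂),
      w.2.1 + σ * Real.sqrt (w.2.2 ^ 2 - (x₁ - w.1) ^ 2) ∈
        Set.Ioo (D.s e₁ N) (D.s e₁ N + D.l N) := by
    apply (hc3.tendsto _).eventually (Ioo_mem_nhds _ _)
    · simp only
      rw [hval]
      linarith
    · simp only
      rw [hval]
      linarith
  obtain ⟨η₃, hη₃, h3⟩ := Metric.eventually_nhds_iff.1 h3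
  refine ⟨t₂, min (η₂ / 2) η₃, lt_min (by positivity) hη₃, ?_⟩
  intro a b t ha hb ht
  rw [lt_min_iff] at ha hb ht
  have h4 := h3 (y := (a, b, t)) (by
    rw [Prod.dist_eq, Prod.dist_eq, max_lt_iff, max_lt_iff, Real.dist_eq, Real.dist_eq,
      Real.dist_eq]
    exact ⟨ha.2, hb.2, ht.2⟩)
  simp only at h4
  have ha' : |a - a₀| < η₂ := by linarith [ha.1]
  have ht' : |t - t₁| < η₂ := by
    have := abs_sub_le t t₂ t₁
    linarith [ht.1]
  have hcap := D.capture hKc (φ := fun x => b + σ * Real.sqrt (t ^ 2 - (x - a) ^ 2)) (by fun_prop)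
    hx₁ (N := N) (c := X / (2 * (t₁ + 1))) (C := 3 * X / Z) hc0 (by
      have h5 : X / (2 * (t₁ + 1)) * (1 / (X / (2 * (t₁ + 1)))) = 1 := mul_one_div_cancel hc0.ne'
      have h6 : X / (2 * (t₁ + 1)) * (1 / (X / (2 * (t₁ + 1)))) ≤
        X / (2 * (t₁ + 1)) * ((N : ℝ) + 1) := mul_le_mul_of_nonneg_left (by linarith) hc0.le
      linarith) (by linarith) (by
      intro x x' hx hx'
      have h5 := (hbl t a x x' ht' ha' (by linarith) (by linarith)).1
      have h6 : b + σ * Real.sqrt (t ^ 2 - (x - a) ^ 2) - (b + σ * Real.sqrt (t ^ 2 - (x' - a) ^ 2))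
        = σ * (Real.sqrt (t ^ 2 - (x - a) ^ 2) - Real.sqrt (t ^ 2 - (x' - a) ^ 2)) := by ring
      have h7 : |σ| = 1 := by rcases hσ with h | h <;> rw [h] <;> simp
      rw [h6, abs_mul, h7, one_mul, div_mul_eq_mul_div, div_le_iff₀ (by positivity)]
      exact h5) (by
      intro x x' hx hx'
      have h5 := (hbl t a x x' ht' ha' (by linarith) (by linarith)).2
      have h6 : b + σ * Real.sqrt (t ^ 2 - (x - a) ^ 2) - (b + σ * Real.sqrt (t ^ 2 - (x' - a) ^ 2))
        = σ * (Real.sqrt (t ^ 2 - (x - a) ^ 2) - Real.sqrt (t ^ 2 - (x' - a) ^ 2)) := by ring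
      have h7 : |σ| = 1 := by rcases hσ with h | h <;> rw [h] <;> simp
      rw [h6, abs_mul, h7, one_mul, div_mul_eq_mul_div, le_div_iff₀ hσZ]
      exact h5) e₁ h4.1.le h4.2.le
  obtain ⟨x, hx, hxx, e, he, hφ⟩ := hcap
  have hxx' : |x - x₁| < η₂ := by linarith
  refine ⟨x, hx, e, ?_, ?_, ?_⟩
  · have := abs_sub_le x x₁ x₀
    linarith
  · have h5 := D.close he
    have := abs_sub_le (D.z e) (D.z e₁) (D.z e₀)
    linarith
  · have hA1 := hA t x a ht' hxx' ha'
    have hZ0 : 0 ≤ Z ^ 2 / 4 := by positivity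
    have htpos : 0 < t := by linarith [(abs_lt.1 ht').1]
    unfold eDist
    simp only at hφ ⊢
    rw [← hφ]
    have h5 : (a - x) ^ 2 + (b - (b + σ * Real.sqrt (t ^ 2 - (x - a) ^ 2))) ^ 2 = t ^ 2 := by
      have h6 := Real.mul_self_sqrt (hZ0.trans hA1.le)
      have h7 : (b - (b + σ * Real.sqrt (t ^ 2 - (x - a) ^ 2))) ^ 2
        = (σ * σ) * (Real.sqrt (t ^ 2 - (x - a) ^ 2) * Real.sqrt (t ^ 2 - (x - a) ^ 2)) := by ring
      rw [h7, hσσ, h6]
      ring
    rw [h5, Real.sqrt_sq htpos.le]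

/-! ### induction on the tree -/

lemma tree (hKc : IsCompact K) (hK' : ∀ x ∈ K, ∀ r : ℝ, 0 < r → ∃ y ∈ K, y ≠ x ∧ |y - x| < r) :
    ∀ (n : ℕ) (V : Type) [Fintype V] (T : SimpleGraph V), Fintype.card V = n → T.IsTree →
    ∀ (r : V) (p : V → ℝ × (ℕ → Bool)), (∀ v, (p v).1 ∈ K) → ∀ δ : ℝ, 0 < δ →
    ∃ (d₀ : Sym2 V → ℝ) (η : ℝ), 0 < η ∧ ∀ d : Sym2 V → ℝ, (∀ e, |d e - d₀ e| < η) →
      ∃ y : V → ℝ × (ℕ → Bool), y r = p r ∧
        (∀ v, (y v).1 ∈ K ∧ |(y v).1 - (p v).1| < δ ∧ |D.z (y v).2 - D.z (p v).2| < δ) ∧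
        ∀ u v, T.Adj u v → eDist ((y u).1, D.z (y u).2) ((y v).1, D.z (y v).2) = d s(u, v) := by
  classical
  intro n
  induction n using Nat.strong_induction_on with
  | _ n ih =>
    intro V _ T hcard hT r p hp δ hδ
    by_cases hsub : Subsingleton V
    · refine ⟨fun _ => 0, 1, one_pos, fun d _ => ⟨p, rfl, fun v => ⟨hp v, ?_, ?_⟩, ?_⟩⟩
      · simpa using hδ
      · simpa using hδ
      · intro u v h
        exact absurd (Subsingleton.elim u v) h.ne
    · have hnt : Nontrivial V := not_subsingleton_iff_nontrivial.1 hsub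
      obtain ⟨v, hvr, hv⟩ : ∃ v, v ≠ r ∧ T.degree v = 1 := by
        obtain ⟨v₁, v₂, hne, h1, h2⟩ := hT.exists_ne_and_degree_eq_one
        by_cases h : v₁ = r
        · exact ⟨v₂, fun h' => hne (h.trans h'.symm), by convert h2⟩
        · exact ⟨v₁, h, by convert h1⟩
      obtain ⟨u, huv, hu⟩ := SimpleGraph.degree_eq_one_iff_existsUnique_adj.1 hv
      have huv' : u ≠ v := huv.ne'
      have hT' : (T.induce ({v}ᶜ : Set V)).IsTree :=
        ⟨hT.connected.induce_compl_singleton_of_degree_eq_one hv, hT.isAcyclic.induce _⟩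
      have hcard' : Fintype.card ({v}ᶜ : Set V) < n := by
        rw [← hcard]
        exact Fintype.card_subtype_lt (x := v) (by simp)
      obtain ⟨t₂, η₁, hη₁, hedge⟩ := D.edge hKc hK' (p u).1 (D.z (p u).2) (hp v) (p v).2 hδ
      obtain ⟨d₀', η', hη', hd⟩ := ih _ hcard' ({v}ᶜ : Set V) (T.induce ({v}ᶜ : Set V)) rfl hT'
        ⟨r, fun h => hvr h.symm⟩ (fun w => p w) (fun w => hp w) (min δ η₁) (lt_min hδ hη₁)
      have hinj : Function.Injective (Sym2.map (Subtype.val : ({v}ᶜ : Set V) → V)) :=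
        Sym2.map.injective Subtype.val_injective
      refine ⟨Function.extend (Sym2.map Subtype.val) d₀' (fun _ => t₂), min η' η₁,
        lt_min hη' hη₁, fun d hdd => ?_⟩
      obtain ⟨y', hy'r, hy', hadj⟩ := hd (fun e => d (Sym2.map Subtype.val e)) (fun e => by
        have := hdd (Sym2.map Subtype.val e)
        rw [hinj.extend_apply] at this
        exact this.trans_le (min_le_left _ _))
      have hdv : |d s(u, v) - t₂| < η₁ := by
        have h1 := hdd s(u, v)
        rw [Function.extend_apply'] at h1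
        · exact h1.trans_le (min_le_right _ _)
        · rintro ⟨e, he⟩
          induction e using Sym2.ind with
          | _ a b =>
            rw [Sym2.map_mk] at he
            have h2 : v ∈ s((a : V), (b : V)) := by
              have h3 : s((a : V), (b : V)) = s(u, v) := he
              rw [h3]
              exact Sym2.mem_mk_right u v
            rw [Sym2.mem_iff] at h2
            rcases h2 with h2 | h2
            · exact a.2 h2.symm
            · exact b.2 h2.symm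
      have hyu := hy' ⟨u, huv'⟩
      obtain ⟨x, hx, e, hx1, hx2, hx3⟩ := hedge (y' ⟨u, huv'⟩).1 (D.z (y' ⟨u, huv'⟩).2) (d s(u, v))
        (hyu.2.1.trans_le (min_le_right _ _)) (hyu.2.2.trans_le (min_le_right _ _)) hdv
      let y : V → ℝ × (ℕ → Bool) := fun w => if h : w = v then (x, e) else y' ⟨w, h⟩
      have hyv : y v = (x, e) := dif_pos rfl
      have hyw : ∀ (w : V) (h : w ≠ v), y w = y' ⟨w, h⟩ := fun w h => dif_neg h
      refine ⟨y, ?_, ?_, ?_⟩
      · rw [hyw r (fun h => hvr h.symm)]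
        exact hy'r
      · intro w
        by_cases h : w = v
        · subst h
          rw [hyv]
          exact ⟨hx, hx1, hx2⟩
        · rw [hyw w h]
          have h1 := hy' ⟨w, h⟩
          exact ⟨h1.1, h1.2.1.trans_le (min_le_left _ _), h1.2.2.trans_le (min_le_left _ _)⟩
      · intro w₁ w₂ h
        by_cases h1 : w₁ = v
        · subst h1
          have h2 : w₂ = u := hu w₂ h
          subst h2
          rw [hyv, hyw w₂ huv', eDist_comm, hx3, Sym2.eq_swap]
        · by_cases h2 : w₂ = v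
          · subst h2
            have h3 : w₁ = u := hu w₁ h.symm
            subst h3
            rw [hyv, hyw w₁ huv']
            exact hx3
          · rw [hyw w₁ h1, hyw w₂ h2]
            exact hadj ⟨w₁, h1⟩ ⟨w₂, h2⟩ h

end Data

lemma infinite_of {K : Set ℝ} (hne : K.Nonempty)
    (hK' : ∀ x ∈ K, ∀ r : ℝ, 0 < r → ∃ y ∈ K, y ≠ x ∧ |y - x| < r) : K.Infinite := by
  intro hfin
  obtain ⟨x, hx⟩ := hne
  have h1 : IsClosed (K \ {x}) := (hfin.subset Set.sdiff_subset).isClosed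
  obtain ⟨r, hr, hball⟩ := Metric.isOpen_iff.1 h1.isOpen_compl x (by simp)
  obtain ⟨y, hy, hyx, hyr⟩ := hK' x hx r hr
  exact hball (by rwa [Metric.mem_ball, Real.dist_eq] : y ∈ Metric.ball x r) ⟨hy, hyx⟩

/-- **Q1 has a positive answer.**  For every Cantor set `K` there is a single Cantor set `K'` such
that the tree distance set of `K × K'` has nonempty interior for all finite trees simultaneously;
moreover all the pinned tree distance sets (with any root, pinned at any point of `K × K'`) have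
nonempty interior. -/
theorem result (K : Set ℝ) (hK : IsCantor K) :
    ∃ K' : Set ℝ, IsCantor K' ∧ ∀ (V : Type) [Fintype V] (T : SimpleGraph V), T.IsTree →
      (interior (treeDist T (K ×ˢ K'))).Nonempty ∧
      ∀ r : V, ∀ y₀ ∈ K ×ˢ K', (interior (pinnedTreeDist T r y₀ (K ×ˢ K'))).Nonempty := by
  classical
  obtain ⟨hne, hKc, _, hK'⟩ := hK
  obtain ⟨D⟩ := exists_data hKc hK'
  refine ⟨Set.range D.z, D.isCantor_range, ?_⟩
  intro V _ T hT
  have main : ∀ r : V, ∀ y₀ ∈ K ×ˢ Set.range D.z,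
      (interior (pinnedTreeDist T r y₀ (K ×ˢ Set.range D.z))).Nonempty := by
    rintro r ⟨a₀, b₀⟩ ⟨ha₀, ⟨e₀, he₀⟩⟩
    simp only at ha₀ he₀
    have hinf := infinite_of hne hK'
    have : Infinite K := hinf.to_subtype
    obtain ⟨f⟩ : Nonempty (V ↪ K) := by
      have h1 : Cardinal.mk V ≤ Cardinal.mk K :=
        (Cardinal.lt_aleph0_of_finite V).le.trans (Cardinal.aleph0_le_mk K)
      exact Cardinal.le_def _ _ |>.1 h1
    let g : V → K := fun v => Equiv.swap (f r) ⟨a₀, ha₀⟩ (f v)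
    have hg : Function.Injective g := (Equiv.injective _).comp f.injective
    have hgr : g r = ⟨a₀, ha₀⟩ := Equiv.swap_apply_left _ _
    obtain ⟨δ, hδ0, hδ⟩ : ∃ δ : ℝ, 0 < δ ∧ ∀ u v : V, u ≠ v → 2 * δ < |(g u : ℝ) - g v| := by
      have h1 : ∀ᶠ δ : ℝ in 𝓝[>] 0, ∀ u v : V, u ≠ v → 2 * δ < |(g u : ℝ) - g v| := by
        rw [eventually_all]
        intro u
        rw [eventually_all]
        intro v
        by_cases h : u = v
        · exact Eventually.of_forall fun _ h' => absurd h h'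
        · have h2 : 0 < |(g u : ℝ) - g v| := abs_pos.2 (sub_ne_zero.2 fun h3 =>
            h (hg (Subtype.ext h3)))
          have h3 : ∀ᶠ δ : ℝ in 𝓝 0, 2 * δ < |(g u : ℝ) - g v| := by
            have hc : Continuous fun δ : ℝ => 2 * δ := by fun_prop
            apply (hc.tendsto 0).eventually (gt_mem_nhds _)
            simpa using h2
          filter_upwards [mem_nhdsWithin_of_mem_nhds h3] with δ hδ _
          exact hδ
      obtain ⟨δ, h2, h3⟩ := (h1.and self_mem_nhdsWithin).exists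
      exact ⟨δ, h3, h2⟩
    obtain ⟨d₀, η, hη, hd⟩ := D.tree hKc hK' _ V T rfl hT r
      (fun v => (g v, e₀)) (fun v => (g v).2) δ hδ0
    have : Fintype T.edgeSet := Fintype.ofFinite _
    refine ⟨fun e => d₀ e, mem_interior.2 ⟨Metric.ball (fun e : T.edgeSet => d₀ e) η, ?_,
      Metric.isOpen_ball, Metric.mem_ball_self hη⟩⟩
    intro d' hd'
    rw [Metric.mem_ball, dist_pi_lt_iff hη] at hd'
    obtain ⟨y, hyr, hy, hadj⟩ := hd (fun e => if h : e ∈ T.edgeSet then d' ⟨e, h⟩ else d₀ e) (by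
      intro e
      by_cases h : e ∈ T.edgeSet
      · simp only [h, dif_pos]
        have := hd' ⟨e, h⟩
        rwa [Real.dist_eq] at this
      · simp only [h, dif_neg, not_false_eq_true, sub_self, abs_zero]
        exact hη)
    refine ⟨fun v => ((y v).1, D.z (y v).2), ?_, ?_, ?_, ?_⟩
    · simp only [hyr, hgr, he₀]
    · intro u v huv
      by_contra hne'
      have huv' : ((y u).1, D.z (y u).2) = ((y v).1, D.z (y v).2) := huv
      have h1 : (y u).1 = (y v).1 := (Prod.mk.inj huv').1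
      have h2 := (hy u).2.1
      have h3 := (hy v).2.1
      have h4 := hδ u v hne'
      rw [h1] at h2
      have h5 := abs_sub_le (g u : ℝ) (y v).1 (g v : ℝ)
      rw [abs_sub_comm (g u : ℝ)  (y v).1] at h5
      simp only at h2 h3
      linarith
    · intro v
      exact ⟨(hy v).1, ⟨_, rfl⟩⟩
    · intro u v h
      have h1 := hadj u v h
      rw [h1]
      simp only [SimpleGraph.mem_edgeSet, h, dif_pos]
  obtain ⟨r⟩ := hT.connected.nonempty
  obtain ⟨a, ha⟩ := hne
  have e : ℕ → Bool := fun _ => true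
  refine ⟨?_, main⟩
  obtain ⟨d, hd⟩ := main r (a, D.z e) ⟨ha, ⟨e, rfl⟩⟩
  refine ⟨d, interior_mono ?_ hd⟩
  rintro d' ⟨y, _, h1, h2, h3⟩
  exact ⟨y, h1, h2, h3⟩

end Pool.Agent.Results.MP_d100af_an.CantorPartner
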